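import Pool.Agent.Helper60.BFT.Goals
set_option autoImplicit false
open Finset Filter Topology MeasureTheory ProbabilityTheory

namespace Pool.Agent.Helper75.BFT

open Pool.Agent.Helper60.BFT

variable {Ω : Type} [MeasurableSpace Ω] {μ : Measure Ω} [IsProbabilityMeasure μ]
  {ω : ℕ → Ω → ℕ}

omit [MeasurableSpace Ω] in
/-- a function of the coordinates in the finite set `T` is measurable -/
theorem meas_loc (ω : ℕ → Ω → ℕ) (T : Finset ℕ) (f : (ℕ → ℕ) → ℝ)
    (hf : ∀ a a' : ℕ → ℕ, (∀ q ∈ T, a q = a' q) → f a = f a') :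
    ∃ G : ((i : T) → ℕ) → ℝ, Measurable G ∧
      ∀ w, f (fun p => ω p w) = G (fun i : T => ω i w) := by
  refine ⟨fun v => f (fun p => if h : p ∈ T then v ⟨p, h⟩ else 0), Measurable.of_discrete, ?_⟩
  intro w
  apply hf
  intro q hq
  simp [hq]

theorem meas_of_loc (hω : ∀ p, Measurable (ω p)) (T : Finset ℕ) (f : (ℕ → ℕ) → ℝ)
    (hf : ∀ a a' : ℕ → ℕ, (∀ q ∈ T, a q = a' q) → f a = f a') :
    Measurable (fun w => f (fun p => ω p w)) := by
  obtain ⟨G, hG, h⟩ := meas_loc ω T f hf
  have h1 : (fun w => f (fun p => ω p w)) = G ∘ (fun w => fun i : T => ω i w) := by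
    funext w
    exact h w
  rw [h1]
  exact hG.comp (measurable_pi_lambda _ (fun i => hω i))

theorem int_of_loc (hω : ∀ p, Measurable (ω p)) (T : Finset ℕ) (f : (ℕ → ℕ) → ℝ)
    (hf : ∀ a a' : ℕ → ℕ, (∀ q ∈ T, a q = a' q) → f a = f a') {B : ℝ} (hB : ∀ a, |f a| ≤ B) :
    Integrable (fun w => f (fun p => ω p w)) μ := by
  apply Integrable.of_bound (meas_of_loc hω T f hf).aestronglyMeasurable B
  exact Eventually.of_forall (fun w => by
    rw [Real.norm_eq_abs]
    exact hB _)

/-- almost surely `ω q < q` -/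
theorem ae_lt (hω : Uni μ ω) {q : ℕ} (hq : q.Prime) : ∀ᵐ w ∂μ, ω q w < q := by
  have h1 : μ {w | ω q w < q} = 1 := by
    have h2 : {w | ω q w < q} = ⋃ c ∈ range q, {w | ω q w = c} := by
      ext w
      simp
    rw [h2, measure_biUnion_finset]
    · rw [Finset.sum_congr rfl (fun c hc => hω.unif q hq c (mem_range.1 hc)), Finset.sum_const,
        Finset.card_range, nsmul_eq_mul]
      exact ENNReal.mul_inv_cancel (by exact_mod_cast hq.ne_zero) (ENNReal.natCast_ne_top q)
    · intro c _ d _ hcd
      rw [Function.onFun, Set.disjoint_left]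
      intro w hw hw'
      exact hcd (hw.symm.trans hw')
    · intro c _
      exact (hω.meas q) (measurableSet_singleton c)
  have h3 : MeasurableSet {w | ω q w < q} := (hω.meas q) (measurableSet_Iio)
  rw [ae_iff]
  have h4 : {w | ¬ ω q w < q} = {w | ω q w < q}ᶜ := rfl
  rw [h4, prob_compl_eq_zero_iff h3]
  exact h1

theorem update_loc {T : Finset ℕ} {f : (ℕ → ℕ) → ℝ}
    (hf : ∀ a a' : ℕ → ℕ, (∀ q ∈ T, a q = a' q) → f a = f a') (q c : ℕ) :
    ∀ a a' : ℕ → ℕ, (∀ p ∈ T.erase q, a p = a' p) →
      f (Function.update a q c) = f (Function.update a' q c) := by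
  intro a a' h
  apply hf
  intro p hp
  by_cases hpq : p = q
  · subst hpq
    simp
  · rw [Function.update_of_ne hpq, Function.update_of_ne hpq]
    exact h p (Finset.mem_erase.2 ⟨hpq, hp⟩)

/-- one coordinate can be resampled -/
theorem resample (hω : Uni μ ω) {q : ℕ} (hq : q.Prime) (T : Finset ℕ) (f : (ℕ → ℕ) → ℝ)
    (hf : ∀ a a' : ℕ → ℕ, (∀ q ∈ T, a q = a' q) → f a = f a') {B : ℝ} (hB : ∀ a, |f a| ≤ B) :
    ∫ w, f (fun p => ω p w) ∂μ
      = ∫ w, (∑ c ∈ range q, f (Function.update (fun p => ω p w) q c)) / (q : ℝ) ∂μ := by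
  classical
  have hup : ∀ c, ∀ a a' : ℕ → ℕ, (∀ p ∈ T, a p = a' p) →
      f (Function.update a q c) = f (Function.update a' q c) := fun c a a' h =>
    update_loc hf q c a a' (fun p hp => h p (Finset.mem_of_mem_erase hp))
  have hmeas : ∀ c, Measurable (fun w => f (Function.update (fun p => ω p w) q c)) := fun c =>
    meas_of_loc hω.meas T (fun a => f (Function.update a q c)) (hup c)
  have hint : ∀ c, Integrable (fun w => f (Function.update (fun p => ω p w) q c)) μ := fun c =>
    int_of_loc hω.meas T (fun a => f (Function.update a q c)) (hup c) (fun a => hB _)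
  have h1 : ∫ w, f (fun p => ω p w) ∂μ
      = ∫ w, ∑ c ∈ range q, (if ω q w = c then (1 : ℝ) else 0) *
          f (Function.update (fun p => ω p w) q c) ∂μ := by
    apply integral_congr_ae
    filter_upwards [ae_lt hω hq] with w hw
    rw [Finset.sum_eq_single (ω q w)]
    · rw [if_pos rfl, one_mul]
      congr 1
      funext p
      by_cases hp : p = q
      · subst hp
        simp
      · rw [Function.update_of_ne hp]
    · intro c _ hc
      rw [if_neg (Ne.symm hc), zero_mul]
    · intro h
      exact absurd (mem_range.2 hw) h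
  rw [h1, integral_finsetSum]
  · rw [integral_div, integral_finsetSum _ (fun c _ => hint c), Finset.sum_div]
    apply Finset.sum_congr rfl
    intro c hc
    have hind : IndepFun (fun a (i : ({q} : Finset ℕ)) => ω i a)
        (fun a (i : (T.erase q : Finset ℕ)) => ω i a) μ :=
      hω.indep.indepFun_finset {q} (T.erase q) (by simp) hω.meas
    obtain ⟨G, hG, hG'⟩ := meas_loc ω (T.erase q) (fun a => f (Function.update a q c))
      (update_loc hf q c)
    have hφ : Measurable (fun v : ({q} : Finset ℕ) → ℕ =>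
        (if v ⟨q, Finset.mem_singleton_self q⟩ = c then (1 : ℝ) else 0)) := Measurable.of_discrete
    have h2 := hind.comp hφ hG
    have h3 : IndepFun (fun w => if ω q w = c then (1 : ℝ) else 0)
        (fun w => f (Function.update (fun p => ω p w) q c)) μ := by
      have e1 : (fun w => if ω q w = c then (1 : ℝ) else 0) =
          (fun v : ({q} : Finset ℕ) → ℕ =>
        (if v ⟨q, Finset.mem_singleton_self q⟩ = c then (1 : ℝ) else 0)) ∘
          (fun a (i : ({q} : Finset ℕ)) => ω i a) := rfl
      have e2 : (fun w => f (Function.update (fun p => ω p w) q c)) =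
          G ∘ (fun a (i : (T.erase q : Finset ℕ)) => ω i a) := by
        funext w
        exact hG' w
      rw [e1, e2]
      exact h2
    have hm : Measurable (fun w => if ω q w = c then (1 : ℝ) else 0) :=
      Measurable.ite ((hω.meas q) (measurableSet_singleton c)) measurable_const measurable_const
    rw [h3.integral_fun_mul_eq_mul_integral hm.aestronglyMeasurable (hmeas c).aestronglyMeasurable]
    have h4 : ∫ w, (if ω q w = c then (1 : ℝ) else 0) ∂μ = 1 / (q : ℝ) := by
      have e3 : (fun w => if ω q w = c then (1 : ℝ) else 0) =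
          Set.indicator {w | ω q w = c} (fun _ => (1 : ℝ)) := by
        funext w
        simp [Set.indicator_apply]
      have hms : MeasurableSet {w | ω q w = c} := (hω.meas q) (measurableSet_singleton c)
      rw [e3, integral_indicator_const _ hms]
      rw [Measure.real, hω.unif q hq c (mem_range.1 hc)]
      simp
    rw [h4]
    ring
  · intro c _
    have hm : Measurable (fun w => if ω q w = c then (1 : ℝ) else 0) :=
      Measurable.ite ((hω.meas q) (measurableSet_singleton c)) measurable_const measurable_const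
    apply Integrable.of_bound (hm.mul (hmeas c)).aestronglyMeasurable B
    refine Eventually.of_forall (fun w => ?_)
    rw [Real.norm_eq_abs, Pi.mul_apply, abs_mul]
    have h5 := hB (Function.update (fun p => ω p w) q c)
    have h6 := abs_nonneg (f (Function.update (fun p => ω p w) q c))
    split_ifs
    · simpa using h5
    · simp only [abs_zero, zero_mul]
      exact h6.trans h5

theorem Av_loc {T : Finset ℕ} : ∀ (L : List ℕ) (f : (ℕ → ℕ) → ℝ),
    (∀ a a' : ℕ → ℕ, (∀ q ∈ T, a q = a' q) → f a = f a') →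
    ∀ a a' : ℕ → ℕ, (∀ q ∈ T, a q = a' q) → Av L f a = Av L f a'
  | [], f, hf, a, a', h => hf a a' h
  | q :: L, f, hf, a, a', h => by
    show (∑ c ∈ range q, Av L f (Function.update a q c)) / (q : ℝ)
      = (∑ c ∈ range q, Av L f (Function.update a' q c)) / (q : ℝ)
    congr 1
    apply Finset.sum_congr rfl
    intro c _
    apply Av_loc L f hf
    intro p hp
    by_cases hpq : p = q
    · subst hpq
      simp
    · rw [Function.update_of_ne hpq, Function.update_of_ne hpq]
      exact h p hp

theorem Av_bd (L : List ℕ) (hL : ∀ q ∈ L, q.Prime) (f : (ℕ → ℕ) → ℝ) {B : ℝ}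
    (hB : ∀ a, |f a| ≤ B) : ∀ a, |Av L f a| ≤ B := by
  induction L with
  | nil => exact hB
  | cons q L ih =>
    intro a
    have ih' := ih (fun p hp => hL p (List.mem_cons_of_mem _ hp))
    have hq : (0 : ℝ) < q := by exact_mod_cast (hL q (by simp)).pos
    show |(∑ c ∈ range q, Av L f (Function.update a q c)) / (q : ℝ)| ≤ B
    rw [abs_div, abs_of_pos hq, div_le_iff₀ hq]
    refine (Finset.abs_sum_le_sum_abs _ _).trans ?_
    refine (Finset.sum_le_sum (fun c _ => ih' _)).trans ?_
    rw [Finset.sum_const, Finset.card_range, nsmul_eq_mul]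
    exact le_of_eq (mul_comm _ _)

theorem law : LAWG := by
  intro Ω _ μ _ ω hω L hLn hLp M f hf hB
  obtain ⟨B, hB⟩ := hB
  have hf' : ∀ a a' : ℕ → ℕ, (∀ q ∈ range (M + 1), a q = a' q) → f a = f a' := fun a a' h =>
    hf a a' (fun q hq => h q (mem_range.2 (by omega)))
  refine ⟨int_of_loc hω.meas (range (M + 1)) f hf' hB, ?_⟩
  clear hLn hf
  induction L with
  | nil => rfl
  | cons q L ih =>
    rw [ih (fun p hp => hLp p (List.mem_cons_of_mem _ hp))]
    exact resample hω (hLp q (by simp)) (range (M + 1)) (Av L f) (Av_loc L f hf')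
      (Av_bd L (fun p hp => hLp p (List.mem_cons_of_mem _ hp)) f hB)

end Pool.Agent.Helper75.BFT
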